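import Mathlib

/-!
# MP_6bc8af_co: `f(k) ≤ 2k - 1` for every `k ≥ 3`

The complete bipartite graph `K_{k,k+1}` is `k`-connected, non-Hamiltonian, has circumference `2k`,
and has two distinct longest cycles with the same `2k` vertices, whose removal leaves one vertex.
With the listed `f(2) = 5` and `f(3) ≥ f(2)` this gives `f(3) = 5`.
-/


namespace Pool.Agent.Results.MP_6bc8af_co.Upper

open SimpleGraph

/-- `k`-connected: more than `k` vertices, and connected after deleting any fewer than `k` vertices. -/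
def KConnected {V : Type} [Fintype V] (k : ℕ) (G : SimpleGraph V) : Prop :=
  k < Fintype.card V ∧ ∀ W : Finset V, W.card < k → (G.induce {v | v ∉ W}).Connected

/-- `p` is a longest cycle of `G`. -/
def IsLongestCycle {V : Type} {G : SimpleGraph V} {v : V} (p : G.Walk v v) : Prop :=
  p.IsCycle ∧ ∀ (u : V) (q : G.Walk u u), q.IsCycle → q.length ≤ p.length

/-- Property `A(m)`: for any two distinct longest cycles (as subgraphs) with at most `m` common
vertices, deleting the common vertices leaves a disconnected graph. -/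
def PropA {V : Type} (m : ℕ) (G : SimpleGraph V) : Prop :=
  ∀ (u v : V) (C : G.Walk u u) (D : G.Walk v v), IsLongestCycle C → IsLongestCycle D →
    C.toSubgraph ≠ D.toSubgraph →
    {x | x ∈ C.support ∧ x ∈ D.support}.ncard ≤ m →
    ∃ a b : V, a ∉ {x | x ∈ C.support ∧ x ∈ D.support} ∧ b ∉ {x | x ∈ C.support ∧ x ∈ D.support} ∧
      ¬ ∃ q : G.Walk a b, ∀ y ∈ q.support, y ∉ {x | x ∈ C.support ∧ x ∈ D.support}

/-- the graph `K_{k,k+1}` -/
abbrev KK (k : ℕ) : SimpleGraph (Fin k ⊕ Fin (k + 1)) := completeBipartiteGraph (Fin k) (Fin (k + 1))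


theorem KK_connected (k : ℕ) (hk : 1 ≤ k) : KConnected k (KK k) := by
  classical
  refine ⟨?_, ?_⟩
  · rw [Fintype.card_sum, Fintype.card_fin, Fintype.card_fin]; omega
  · intro W hW
    have hl : ∃ l : Fin k, (Sum.inl l : Fin k ⊕ Fin (k + 1)) ∉ W := by
      by_contra hcon
      push Not at hcon
      have h1 : (Finset.univ : Finset (Fin k)).image (Sum.inl : Fin k → Fin k ⊕ Fin (k + 1)) ⊆ W := by
        intro x hx
        obtain ⟨l, -, rfl⟩ := Finset.mem_image.1 hx
        exact hcon l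
      have h2 := Finset.card_le_card h1
      rw [Finset.card_image_of_injective _ Sum.inl_injective, Finset.card_univ, Fintype.card_fin] at h2
      omega
    have hr : ∃ r : Fin (k + 1), (Sum.inr r : Fin k ⊕ Fin (k + 1)) ∉ W := by
      by_contra hcon
      push Not at hcon
      have h1 : (Finset.univ : Finset (Fin (k + 1))).image
          (Sum.inr : Fin (k + 1) → Fin k ⊕ Fin (k + 1)) ⊆ W := by
        intro x hx
        obtain ⟨l, -, rfl⟩ := Finset.mem_image.1 hx
        exact hcon l
      have h2 := Finset.card_le_card h1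
      rw [Finset.card_image_of_injective _ Sum.inr_injective, Finset.card_univ, Fintype.card_fin] at h2
      omega
    obtain ⟨l, hl⟩ := hl
    obtain ⟨r, hr⟩ := hr
    have hadj : ∀ (a : Fin k) (b : Fin (k + 1)) (ha : (Sum.inl a : Fin k ⊕ Fin (k + 1)) ∉ W)
        (hb : (Sum.inr b : Fin k ⊕ Fin (k + 1)) ∉ W),
        ((KK k).induce {v | v ∉ W}).Adj ⟨Sum.inl a, ha⟩ ⟨Sum.inr b, hb⟩ := by
      intro a b ha hb
      show (KK k).Adj (Sum.inl a) (Sum.inr b)
      simp [KK]
    have hreach : ∀ x : {v | v ∉ W}, ((KK k).induce {v | v ∉ W}).Reachable x ⟨Sum.inl l, hl⟩ := by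
      rintro ⟨x | x, hx⟩
      · exact (hadj x r hx hr).reachable.trans (hadj l r hl hr).symm.reachable
      · exact (hadj l x hl hx).symm.reachable
    rw [SimpleGraph.connected_iff]
    refine ⟨fun x y => (hreach x).trans (hreach y).symm, ⟨⟨Sum.inl l, hl⟩⟩⟩




theorem aux_count (k : ℕ) (a c : Fin k ⊕ Fin (k + 1)) (q : (KK k).Walk a c) :
    2 * q.support.tail.countP (fun x => x.isLeft) + (if a.isLeft then 1 else 0)
      = q.length + (if c.isLeft then 1 else 0) := by
  induction q with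
  | nil => simp
  | @cons a b c h q ih =>
    have hs : (Walk.cons h q).support.tail = b :: q.support.tail := by
      rw [Walk.support_cons, List.tail_cons]
      exact q.cons_tail_support.symm
    rw [hs, List.countP_cons, Walk.length_cons]
    have hab : (if a.isLeft then 1 else 0) + (if b.isLeft then 1 else 0) = 1 := by
      have h' : a.isLeft ∧ b.isRight ∨ a.isRight ∧ b.isLeft := h
      clear ih h hs
      cases a <;> cases b <;> simp at h' ⊢
    omega

theorem aux_left (k : ℕ) (l : List (Fin k ⊕ Fin (k + 1))) (hl : l.Nodup) :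
    l.countP (fun x => x.isLeft) ≤ k := by
  classical
  rw [List.countP_eq_length_filter]
  have h1 : (l.filter (fun x => x.isLeft)).Nodup := hl.filter _
  rw [← List.toFinset_card_of_nodup h1]
  have h2 : (l.filter (fun x => x.isLeft)).toFinset ⊆
      (Finset.univ : Finset (Fin k)).image (Sum.inl : Fin k → Fin k ⊕ Fin (k + 1)) := by
    intro x hx
    rw [List.mem_toFinset, List.mem_filter] at hx
    cases x with
    | inl y => simp
    | inr y => simp at hx
  calc _ ≤ _ := Finset.card_le_card h2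
    _ ≤ (Finset.univ : Finset (Fin k)).card := Finset.card_image_le
    _ = k := by simp

/-- a cycle of `K_{k,k+1}` has at most `2k` edges -/
theorem cycle_len (k : ℕ) (v : Fin k ⊕ Fin (k + 1)) (p : (KK k).Walk v v) (hp : p.IsCycle) :
    p.length ≤ 2 * k := by
  have h1 := aux_count k v v p
  have h2 := aux_left k _ hp.support_nodup
  omega



theorem seq_walk {V : Type} {G : SimpleGraph V} (f : ℕ → V) (n : ℕ)
    (h : ∀ i < n, G.Adj (f i) (f (i + 1))) :
    ∃ p : G.Walk (f 0) (f n), p.length = n ∧ (∀ x, x ∈ p.support ↔ ∃ i ≤ n, x = f i) ∧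
      (∀ e, e ∈ p.edges ↔ ∃ i < n, e = s(f i, f (i + 1))) ∧
      ((∀ i ≤ n, ∀ j ≤ n, f i = f j → i = j) → p.IsPath) := by
  induction n with
  | zero =>
    refine ⟨Walk.nil, rfl, ?_, ?_, ?_⟩
    · intro x
      simp
    · intro e
      simp
    · intro _
      exact Walk.IsPath.nil
  | succ n ih =>
    obtain ⟨p, h1, h2, h3, h4⟩ := ih fun i hi => h i (by omega)
    refine ⟨p.concat (h n (by omega)), ?_, ?_, ?_, ?_⟩
    · rw [Walk.length_concat, h1]
    · intro x
      rw [Walk.support_concat, List.mem_append, h2, List.mem_singleton]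
      constructor
      · rintro (⟨i, hi, rfl⟩ | rfl)
        · exact ⟨i, by omega, rfl⟩
        · exact ⟨n + 1, le_rfl, rfl⟩
      · rintro ⟨i, hi, rfl⟩
        rcases Nat.lt_or_ge n i with h' | h'
        · right
          have : i = n + 1 := by omega
          rw [this]
        · left
          exact ⟨i, h', rfl⟩
    · intro e
      rw [Walk.edges_concat, List.concat_eq_append, List.mem_append, h3, List.mem_singleton]
      constructor
      · rintro (⟨i, hi, rfl⟩ | rfl)
        · exact ⟨i, by omega, rfl⟩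
        · exact ⟨n, by omega, rfl⟩
      · rintro ⟨i, hi, rfl⟩
        rcases Nat.lt_or_ge i n with h' | h'
        · left
          exact ⟨i, h', rfl⟩
        · right
          have : i = n := by omega
          rw [this]
    · intro hinj
      refine (h4 fun i hi j hj hij => hinj i (by omega) j (by omega) hij).concat ?_ _
      rw [h2]
      rintro ⟨i, hi, he⟩
      have := hinj (n + 1) le_rfl i (by omega) he
      omega

theorem seq_cycle {V : Type} {G : SimpleGraph V} (f : ℕ → V) (n : ℕ) (hn : 2 ≤ n)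
    (h : ∀ i < n, G.Adj (f i) (f (i + 1))) (hcl : G.Adj (f n) (f 0))
    (hinj : ∀ i ≤ n, ∀ j ≤ n, f i = f j → i = j) :
    ∃ C : G.Walk (f n) (f n), C.IsCycle ∧ C.length = n + 1 ∧
      (∀ x, x ∈ C.support ↔ ∃ i ≤ n, x = f i) ∧
      (∀ e, e ∈ C.edges ↔ e = s(f n, f 0) ∨ ∃ i < n, e = s(f i, f (i + 1))) := by
  obtain ⟨p, h1, h2, h3, h4⟩ := seq_walk f n h
  refine ⟨Walk.cons hcl p, ?_, ?_, ?_, ?_⟩
  · rw [Walk.cons_isCycle_iff]
    refine ⟨h4 hinj, ?_⟩
    rw [h3]
    rintro ⟨i, hi, he⟩
    rw [Sym2.eq_iff] at he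
    rcases he with ⟨a, b⟩ | ⟨a, b⟩
    · have := hinj _ le_rfl _ (by omega) a
      omega
    · have e1 := hinj _ le_rfl _ (by omega) a
      have e2 := hinj _ (by omega) _ (by omega) b
      omega
  · rw [Walk.length_cons, h1]
  · intro x
    rw [Walk.support_cons, List.mem_cons, h2]
    constructor
    · rintro (rfl | hx)
      · exact ⟨n, le_rfl, rfl⟩
      · exact hx
    · intro hx
      exact Or.inr hx
  · intro e
    rw [Walk.edges_cons, List.mem_cons, h3]

/-- the sequence of vertices -/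
def sq (k : ℕ) (hk : 0 < k) (τ : ℕ → ℕ) (i : ℕ) : Fin k ⊕ Fin (k + 1) :=
  if i % 2 = 0 then Sum.inl ⟨(i / 2) % k, Nat.mod_lt _ hk⟩
  else Sum.inr ⟨τ (i / 2) % (k + 1), Nat.mod_lt _ (Nat.succ_pos k)⟩

theorem sq_even (k : ℕ) (hk : 0 < k) (τ : ℕ → ℕ) (j : ℕ) (hj : j < k) :
    sq k hk τ (2 * j) = Sum.inl ⟨j, hj⟩ := by
  unfold sq
  rw [if_pos (by omega)]
  congr 2
  rw [show 2 * j / 2 = j by omega, Nat.mod_eq_of_lt hj]

theorem sq_odd (k : ℕ) (hk : 0 < k) (τ : ℕ → ℕ) (j : ℕ) (hj : τ j < k) :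
    sq k hk τ (2 * j + 1) = Sum.inr ⟨τ j, by omega⟩ := by
  unfold sq
  rw [if_neg (by omega)]
  congr 2
  rw [show (2 * j + 1) / 2 = j by omega, Nat.mod_eq_of_lt (by omega)]

theorem sq_cycle (k : ℕ) (hk : 3 ≤ k) (τ : ℕ → ℕ) (h1 : ∀ j < k, τ j < k)
    (h2 : ∀ i < k, ∀ j < k, τ i = τ j → i = j) (h3 : ∀ j < k, ∃ i < k, τ i = j) :
    ∃ (u : Fin k ⊕ Fin (k + 1)) (C : (KK k).Walk u u), C.IsCycle ∧ C.length = 2 * k ∧
      (∀ x, x ∈ C.support ↔ x ≠ Sum.inr (Fin.last k)) ∧
      (∀ e, e ∈ C.edges ↔ e = s(sq k (by omega) τ (2 * k - 1), sq k (by omega) τ 0) ∨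
        ∃ i < 2 * k - 1, e = s(sq k (by omega) τ i, sq k (by omega) τ (i + 1))) := by
  have hk0 : 0 < k := by omega
  have hadj : ∀ i j, i % 2 ≠ j % 2 → (KK k).Adj (sq k hk0 τ i) (sq k hk0 τ j) := by
    intro i j hij
    unfold sq
    by_cases hi : i % 2 = 0
    · rw [if_pos hi, if_neg (by omega)]
      simp
    · rw [if_neg hi, if_pos (by omega)]
      simp
  obtain ⟨C, c1, c2, c3, c4⟩ := seq_cycle (G := KK k) (sq k hk0 τ) (2 * k - 1) (by omega)
    (fun i hi => hadj _ _ (by omega)) (hadj _ _ (by omega)) (by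
      intro i hi j hj hij
      obtain ⟨a, ha | ha⟩ : ∃ a, i = 2 * a ∨ i = 2 * a + 1 := ⟨i / 2, by omega⟩ <;>
      obtain ⟨b, hb | hb⟩ : ∃ b, j = 2 * b ∨ j = 2 * b + 1 := ⟨j / 2, by omega⟩
      · rw [ha, hb, sq_even k hk0 τ a (by omega), sq_even k hk0 τ b (by omega)] at hij
        have := congrArg Fin.val (Sum.inl.inj hij)
        simp only at this
        omega
      · rw [ha, hb, sq_even k hk0 τ a (by omega), sq_odd k hk0 τ b (h1 b (by omega))] at hij
        simp at hij
      · rw [ha, hb, sq_even k hk0 τ b (by omega), sq_odd k hk0 τ a (h1 a (by omega))] at hij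
        simp at hij
      · rw [ha, hb, sq_odd k hk0 τ a (h1 a (by omega)), sq_odd k hk0 τ b (h1 b (by omega))] at hij
        have := congrArg Fin.val (Sum.inr.inj hij)
        simp only at this
        have := h2 a (by omega) b (by omega) this
        omega)
  refine ⟨_, C, c1, by rw [c2]; omega, ?_, c4⟩
  intro x
  rw [c3]
  constructor
  · rintro ⟨i, hi, rfl⟩
    obtain ⟨a, ha | ha⟩ : ∃ a, i = 2 * a ∨ i = 2 * a + 1 := ⟨i / 2, by omega⟩
    · rw [ha, sq_even k hk0 τ a (by omega)]
      simp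
    · rw [ha, sq_odd k hk0 τ a (h1 a (by omega))]
      intro he
      have := congrArg Fin.val (Sum.inr.inj he)
      have h' := h1 a (by omega)
      simp only [Fin.val_last] at this
      omega
  · intro hx
    rcases x with x | x
    · refine ⟨2 * x, by omega, ?_⟩
      rw [sq_even k hk0 τ x x.2]
    · have hxk : x.val < k := by
        rcases Nat.lt_or_ge x.val k with h | h
        · exact h
        · exfalso
          apply hx
          congr 1
          apply Fin.ext
          rw [Fin.val_last]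
          omega
      obtain ⟨i, hi, he⟩ := h3 x hxk
      refine ⟨2 * i + 1, by omega, ?_⟩
      rw [sq_odd k hk0 τ i (h1 i hi)]
      congr 1
      apply Fin.ext
      exact he.symm

/-- two different cycles of length `2k` with the same vertex set, avoiding the last vertex -/
theorem two_cycles (k : ℕ) (hk : 3 ≤ k) : ∃ (u v : Fin k ⊕ Fin (k + 1)) (C : (KK k).Walk u u)
    (D : (KK k).Walk v v), C.IsCycle ∧ D.IsCycle ∧ C.length = 2 * k ∧ D.length = 2 * k ∧
      C.toSubgraph ≠ D.toSubgraph ∧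
      (∀ x, x ∈ C.support ↔ x ≠ Sum.inr (Fin.last k)) ∧
      (∀ x, x ∈ D.support ↔ x ≠ Sum.inr (Fin.last k)) := by
  have hk0 : 0 < k := by omega
  obtain ⟨u, C, c1, c2, c3, c4⟩ := sq_cycle k hk (fun j => j) (fun j hj => hj)
    (fun i _ j _ h => h) (fun j hj => ⟨j, hj, rfl⟩)
  have τ0 : ∀ j, (fun j : ℕ => if j = 0 then 1 else if j = 1 then 0 else j) j =
      if j = 0 then 1 else if j = 1 then 0 else j := fun j => rfl
  generalize (fun j : ℕ => if j = 0 then 1 else if j = 1 then 0 else j) = τ at τ0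
  have t1 : ∀ j < k, τ j < k := by
    intro j hj
    rw [τ0]
    split_ifs <;> omega
  obtain ⟨v, D, d1, d2, d3, d4⟩ := sq_cycle k hk τ t1
    (by
      intro i hi j hj h
      rw [τ0, τ0] at h
      split_ifs at h <;> omega)
    (by
      intro j hj
      by_cases h0 : j = 0
      · refine ⟨1, by omega, ?_⟩
        rw [τ0]; simp [h0]
      · by_cases h1 : j = 1
        · refine ⟨0, by omega, ?_⟩
          rw [τ0]; simp [h1]
        · refine ⟨j, hj, ?_⟩
          rw [τ0]; simp [h0, h1])
  refine ⟨u, v, C, D, c1, d1, c2, d2, ?_, c3, d3⟩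
  intro he
  have hC : s((Sum.inr ⟨1, by omega⟩ : Fin k ⊕ Fin (k + 1)), Sum.inl ⟨2, by omega⟩) ∈ C.edges := by
    rw [c4]
    right
    refine ⟨3, by omega, ?_⟩
    have e1 := sq_odd k hk0 (fun j => j) 1 (by omega)
    have e2 := sq_even k hk0 (fun j => j) 2 (by omega)
    norm_num at e1 e2
    rw [e1, e2]
  rw [← Walk.mem_edges_toSubgraph, he, Walk.mem_edges_toSubgraph, d4] at hC
  rcases hC with hC | ⟨i, hi, hC⟩
  · have e1 := sq_even k hk0 τ 0 (by omega)
    have e2 := sq_odd k hk0 τ (k - 1) (t1 _ (by omega))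
    rw [show 2 * (k - 1) + 1 = 2 * k - 1 by omega] at e2
    rw [mul_zero] at e1
    rw [e1, e2, Sym2.eq_iff] at hC
    rcases hC with ⟨_, hC⟩ | ⟨hC, _⟩
    · have := congrArg Fin.val (Sum.inl.inj hC)
      simp at this
    · simp at hC
  · obtain ⟨a, ha | ha⟩ : ∃ a, i = 2 * a ∨ i = 2 * a + 1 := ⟨i / 2, by omega⟩
    · have e1 := sq_even k hk0 τ a (by omega)
      have e2 := sq_odd k hk0 τ a (t1 _ (by omega))
      rw [ha, e1, e2, Sym2.eq_iff] at hC
      rcases hC with ⟨hC, _⟩ | ⟨hC, hC'⟩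
      · simp at hC
      · have q1 := congrArg Fin.val (Sum.inl.inj hC')
        have q2 := congrArg Fin.val (Sum.inr.inj hC)
        simp only at q1 q2
        rw [← q1, τ0] at q2
        simp at q2
    · have e1 := sq_odd k hk0 τ a (t1 _ (by omega))
      have e2 := sq_even k hk0 τ (a + 1) (by omega)
      rw [show 2 * (a + 1) = 2 * a + 1 + 1 by ring] at e2
      rw [ha, e1, e2, Sym2.eq_iff] at hC
      rcases hC with ⟨hC, hC'⟩ | ⟨hC, _⟩
      · have q1 := congrArg Fin.val (Sum.inl.inj hC')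
        have q2 := congrArg Fin.val (Sum.inr.inj hC)
        simp only at q1 q2
        have q3 : a = 1 := by omega
        rw [q3, τ0] at q2
        simp at q2
      · simp at hC



/-- **Result.** For every `k ≥ 3` there is a `k`-connected non-Hamiltonian finite graph without
property `A(2k)`; hence every `m` such that all `k`-connected non-Hamiltonian finite graphs have
property `A(m)` satisfies `m ≤ 2k - 1`, i.e. `f(k) ≤ 2k - 1`. -/
theorem result (k : ℕ) (hk : 3 ≤ k) (m : ℕ)
    (hm : ∀ (V : Type) [Fintype V] [DecidableEq V] (G : SimpleGraph V), KConnected k G →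
      ¬ G.IsHamiltonian → PropA m G) : m ≤ 2 * k - 1 := by
  by_contra hlt
  have hm2 : 2 * k ≤ m := by omega
  obtain ⟨u, v, C, D, hC, hD, hCl, hDl, hne, hCs, hDs⟩ := two_cycles k hk
  have hnh : ¬ (KK k).IsHamiltonian := by
    intro hH
    have hcard : Fintype.card (Fin k ⊕ Fin (k + 1)) = 2 * k + 1 := by
      simp; omega
    obtain ⟨a, p, hp⟩ := hH (by rw [hcard]; omega)
    have h1 := cycle_len k a p hp.isCycle
    have h2 := hp.length_eq
    rw [hcard] at h2
    omega
  have hset : {x | x ∈ C.support ∧ x ∈ D.support} = {x | x ≠ Sum.inr (Fin.last k)} := by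
    ext x
    simp only [Set.mem_setOf_eq]
    rw [hCs x, hDs x]
    simp
  have hA := hm (Fin k ⊕ Fin (k + 1)) (KK k) (KK_connected k (by omega)) hnh u v C D
    ⟨hC, fun w q hq => by rw [hCl]; exact cycle_len k w q hq⟩
    ⟨hD, fun w q hq => by rw [hDl]; exact cycle_len k w q hq⟩ hne
    (by
      rw [hset]
      have h1 : {x : Fin k ⊕ Fin (k + 1) | x ≠ Sum.inr (Fin.last k)} =
          ({Sum.inr (Fin.last k)} : Set (Fin k ⊕ Fin (k + 1)))ᶜ := by
        ext x; simp
      rw [h1, Set.ncard_compl]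
      simp
      omega)
  obtain ⟨a, b, ha, hb, hab⟩ := hA
  rw [hset] at ha hb hab
  simp only [Set.mem_setOf_eq, not_not] at ha hb hab
  subst ha
  subst hb
  exact hab ⟨SimpleGraph.Walk.nil, by simp⟩
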